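import Mathlib
import Pool.Agent.H.MP_77d395_lc.A

set_option autoImplicit false

namespace Pool.Agent.H.MP_84ba36_lc

open Set Filter Function Cardinal Topology MeasureTheory Pool.Agent.H.MP_77d395_lc
open scoped ENNReal

/-- Lipschitz maps with constant one -/
def Lip {D : Type} (f : (ℕ → D) → ℕ → D) : Prop :=
  ∀ k x y, (∀ i < k, x i = y i) → ∀ i < k, f x i = f y i

/-- aleph one dense sets -/
def Den {D : Type} [TopologicalSpace D] (A : Set (ℕ → D)) : Prop :=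
  ∀ U, IsOpen U → U.Nonempty → #↥(A ∩ U) = ℵ₁

/-- the weak Lipschitz Baumgartner axiom -/
def BA (D : Type) [TopologicalSpace D] : Prop :=
  ∀ A B : Set (ℕ → D), Den A → Den B → ∃ f, Lip f ∧ InjOn f A ∧ f '' A ⊆ B

/-- additivity of the Lebesgue null ideal -/
noncomputable def addN : Cardinal.{0} :=
  sInf {c | ∃ F : Set (Set ℝ), (∀ N ∈ F, volume N = 0) ∧ volume (⋃₀ F) ≠ 0 ∧ #F = c}

theorem cls {D : Type} [Countable D] (y : ℕ → D) : {z | z =ᶠ[atTop] y}.Countable :=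
  (countable_range fun p : Σ k, Fin k → D => fun n => if h : n < p.1 then p.2 ⟨n, h⟩ else y n).mono
    fun z h => by
      obtain ⟨k, hk⟩ := eventually_atTop.1 h
      exact ⟨⟨k, fun i => z i⟩, funext fun n => by
        by_cases c : n < k <;> simp [c]; exact (hk n (not_lt.1 c)).symm⟩

def Cl {D : Type} (Y : I → ℕ → D) : Set (ℕ → D) := {z | ∃ a, z =ᶠ[atTop] Y a}

theorem den {D : Type} [Countable D] [TopologicalSpace D] [DiscreteTopology D] {Y : I → ℕ → D}
    (h : ∀ a b, Y a =ᶠ[atTop] Y b → a = b) : Den (Cl Y) := fun U u ⟨x, hx⟩ => by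
  refine le_antisymm ((mk_le_mk_of_subset (t := ⋃ a, {z | z =ᶠ[atTop] Y a}) fun z h =>
    mem_iUnion.2 h.1).trans ((mk_iUnion_le _).trans (mul_le_of_le (aleph0_le_aleph 1) mkI.le
      (ciSup_le' fun a => (le_aleph0_iff_set_countable.2 (cls _)).trans (aleph0_le_aleph 1))))) ?_
  obtain ⟨_, ⟨y, k, rfl⟩, h1, h2⟩ := (PiNat.isTopologicalBasis_cylinders _).exists_subset_of_mem_open
    hx u
  have e : ∀ a, (fun n => if n < k then y n else Y a n) =ᶠ[atTop] Y a := fun a =>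
    (eventually_ge_atTop k).mono fun n h => if_neg h.not_gt
  exact mkI ▸ mk_le_of_injective (f := fun a => ⟨_, ⟨a, e a⟩, h2 fun i h => if_pos h⟩)
    fun a b c => h a b ((e a).symm.trans ((EventuallyEq.of_eq (congrArg Subtype.val c)).trans (e b)))

theorem big {D : Type} [Countable D] {Y : I → ℕ → D} {g : I → ℕ → D} (h : Injective g)
    (hg : ∀ a, g a ∈ Cl Y) (b : I) : ∃ a c, b ≤ c ∧ g a =ᶠ[atTop] Y c := by
  obtain ⟨a, ha⟩ := unc (((cI b).biUnion fun c _ => cls (Y c)).preimage h)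
  obtain ⟨c, hc⟩ := hg a
  exact ⟨a, c, (not_le.1 fun e => ha (mem_biUnion e hc)).le, hc⟩

theorem fr (K : Type) [Countable K] [Nonempty K] :
    ∃ t : ℕ → K, ∀ {D : Type} (u v : K → D), u ∘ t =ᶠ[atTop] v ∘ t → u = v := by
  obtain ⟨e, he⟩ := exists_surjective_nat K
  refine ⟨fun n => e n.unpair.1, fun u v h => funext fun p => ?_⟩
  obtain ⟨i, rfl⟩ := he p
  obtain ⟨k, hk⟩ := eventually_atTop.1 h
  simpa using hk _ (Nat.right_le_pair i k)

theorem rr : ∃ r : I → ℕ → Bool, Injective r :=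
  let ⟨r⟩ := (le_def I (ℕ → Bool)).1 (by simpa [mkI] using aleph_one_le_continuum); ⟨r, r.2⟩

theorem q1 (D : Type) [Countable D] [Nontrivial D] [TopologicalSpace D] [DiscreteTopology D]
    (h : BA D) : (2 : Cardinal.{0}) ^ ℵ₀ = 2 ^ ℵ₁ := by
  classical
  refine le_antisymm (power_le_power_left two_ne_zero (aleph0_le_aleph 1)) ?_
  obtain ⟨d⟩ := (le_def Bool D).1 (by simpa using two_le_iff.2 (exists_pair_ne D))
  obtain ⟨r, hr⟩ := rr
  obtain ⟨t, ht⟩ := fr (ℕ ⊕ ℕ)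
  choose ξ hξ using fun a => countable_iff_exists_subset_range.1 (cI a)
  let Y : Set I → I → ℕ → D := fun S a =>
    (d ∘ Sum.elim (r a) fun m => decide (ξ a m ∈ S)) ∘ t
  have y1 : ∀ S T a b, Y S a =ᶠ[atTop] Y T b → a = b ∧ ∀ c ≤ a, c ∈ S ↔ c ∈ T := fun S T a b h => by
    have := d.injective.comp_left (ht _ _ h)
    obtain rfl : a = b := hr (funext fun n => congrFun this (.inl n))
    refine ⟨rfl, fun c hc => ?_⟩
    obtain ⟨m, rfl⟩ := hξ a hc
    simpa using congrFun this (.inr m)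
  choose f f1 f2 f3 using fun S => h _ _ (den fun a b c => (y1 ∅ ∅ a b c).1)
    (den fun a b c => (y1 S S a b c).1)
  have m : ∀ a, Y ∅ a ∈ Cl (Y ∅) := fun a => ⟨a, .rfl⟩
  obtain ⟨y⟩ : Nonempty (ℕ → D) := inferInstance
  have := (cls y).to_subtype
  have : Injective fun S (z : {z | z =ᶠ[atTop] y}) => f S z := fun S T e => by
    have e : f S = f T := funext fun x => funext fun i => by
      have c : ∀ S, f S x i = f S (fun n => if n < i + 1 then x n else y n) i := fun S =>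
        f1 S (i + 1) _ _ (fun j h => (if_pos h).symm) i i.lt_succ_self
      rw [c S, c T]
      exact congrFun (congrFun e ⟨_, (eventually_ge_atTop (i + 1)).mono fun n h =>
        if_neg h.not_gt⟩) i
    ext b
    obtain ⟨a, c, h1, h2⟩ := big (g := fun a => f S (Y ∅ a)) (fun a b c => (y1 ∅ ∅ a b
      (f2 S (m a) (m b) c ▸ .rfl)).1) (fun a => f3 S ⟨_, m a, rfl⟩) b
    obtain ⟨c', h3⟩ := f3 T ⟨_, m a, rfl⟩
    exact (y1 S T c c' (h2.symm.trans (e ▸ h3))).2 b h1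
  have := mk_le_of_injective this
  simp only [mk_set, mkI, ← power_def] at this
  refine this.trans ((power_le_power_left (power_ne_zero _ (mk_ne_zero D)) mk_le_aleph0).trans ?_)
  rw [← power_mul]
  simpa using power_le_power_right (c := ℵ₀) (mk_le_aleph0 (α := D))

theorem nul {X : Type} [MeasurableSpace X] (μ : Measure X) (A : ℕ → Set X) (ε : ℕ → ℝ≥0∞)
    (s : ℕ → Finset ℕ) (hs : ∀ n, (s n).card * ε n ≤ 2⁻¹ ^ n) :
    μ {y | ∃ᶠ n in atTop, ∃ c ∈ s n, μ (A c) ≤ ε n ∧ y ∈ A c} = 0 := by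
  classical
  refine measure_setOfPred_frequently_eq_zero (ne_top_of_le_ne_top (b := ∑' n : ℕ, 2⁻¹ ^ n)
    (by simp) (ENNReal.tsum_le_tsum fun n => ?_))
  refine (measure_mono (t := ⋃ c ∈ (s n).filter fun c => μ (A c) ≤ ε n, A c) fun y h => by
    simpa [and_assoc] using h).trans ((measure_biUnion_finset_le _ _).trans
      ((Finset.sum_le_card_nsmul _ _ (ε n) fun c h => (Finset.mem_filter.1 h).2).trans ?_))
  rw [nsmul_eq_mul]
  exact (mul_le_mul_left (by exact_mod_cast Finset.card_filter_le _ _) _).trans (hs n)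

theorem code {X : Type} [TopologicalSpace X] [SecondCountableTopology X] [MeasurableSpace X]
    [BorelSpace X] (μ : Measure X) [μ.OuterRegular] (ε : ℕ → ℝ≥0∞) (ε0 : ∀ n, 0 < ε n) :
    ∃ A : ℕ → Set X, ∀ N, μ N = 0 →
    ∃ x : ℕ → ℕ, (∀ n, μ (A (x n)) ≤ ε n) ∧ ∀ y ∈ N, ∃ᶠ n in atTop, y ∈ A (x n) := by
  let B := insert ∅ (TopologicalSpace.countableBasis X)
  have hB := (TopologicalSpace.isBasis_countableBasis X).insert_empty
  have cB : B.Countable := (TopologicalSpace.countable_countableBasis _).insert _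
  have a := isSetAlgebra_generateSetAlgebra (𝒜 := B)
  obtain ⟨A, hA⟩ := countable_iff_exists_subset_range.1 (countable_generateSetAlgebra cB)
  refine ⟨A, fun N h => ?_⟩
  choose U u1 u2 u3 using fun n : ℕ => N.exists_isOpen_lt_of_lt (μ := μ) (2⁻¹ ^ n)
    (h ▸ ENNReal.pow_pos (by simp) _)
  have : ∀ n, ∃ V : ℕ → Set X, (∀ k, V k ∈ B) ∧ U n = ⋃ k, V k := fun n => by
    obtain ⟨V, v⟩ := (cB.mono (sep_subset _ (· ⊆ U n))).exists_eq_range ⟨∅, .inl rfl, by simp⟩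
    exact ⟨V, fun k => (v.ge ⟨k, rfl⟩).1, (hB.open_eq_sUnion' (u2 n)).trans (v ▸ sUnion_range _)⟩
  choose V v1 v2 using this
  let E : ℕ → Set X := fun i => disjointed (V i.unpair.1) i.unpair.2
  have : ∑' i, μ (E i) ≠ ∞ := by
    rw [← Nat.pairEquiv.tsum_eq, ENNReal.tsum_prod']
    refine ne_top_of_le_ne_top (b := ∑' n : ℕ, 2⁻¹ ^ n) (by simp) (ENNReal.tsum_le_tsum fun n =>
      le_trans ?_ (u3 n).le)
    rw [v2, ← iUnion_disjointed, measure_iUnion (disjoint_disjointed _)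
      (.disjointed fun k => (hB.isOpen (v1 n k)).measurableSet)]
    simp [E]
  obtain ⟨p, p1, p2⟩ := extraction_forall_of_eventually fun n =>
    (ENNReal.tendsto_sum_nat_add _ this).eventually (ge_mem_nhds (ε0 n))
  choose x hx using fun m => hA (a.biUnion_mem (s := E) (Finset.Ico (p m) (p (m + 1))) fun i _ =>
    a.isSetRing.disjointed_mem (fun k => self_subset_generateSetAlgebra (v1 _ k)) _)
  refine ⟨x, fun n => le_trans (hx n ▸ (measure_mono (iUnion₂_subset fun i h => subset_iUnion_of_subset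
    (i - p n) (by rw [Nat.sub_add_cancel (Finset.mem_Ico.1 h).1]))).trans (measure_iUnion_le _))
    (p2 n), fun y hy => frequently_atTop.2 fun M => ?_⟩
  obtain ⟨k, hk⟩ := mem_iUnion.1 ((v2 (p M)).trans iUnion_disjointed.symm ▸ u1 (p M) hy :)
  have : ∀ i, p M ≤ i → ∃ m ≥ M, p m ≤ i ∧ i < p (m + 1) := fun i h => by
    induction i, h using Nat.le_induction with
    | base => exact ⟨M, le_rfl, le_rfl, p1 M.lt_succ_self⟩
    | succ i h ih =>
      obtain ⟨m, m1, m2, m3⟩ := ih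
      have := p1 (m + 1).lt_succ_self
      by_cases c : i + 1 < p (m + 1)
      exacts [⟨m, m1, by omega, c⟩, ⟨m + 1, by omega, by omega, by simp at *; omega⟩]
  obtain ⟨m, m1, m2⟩ := this _ (Nat.left_le_pair (p M) k)
  exact ⟨m, m1, hx m ▸ mem_iUnion₂.2 ⟨_, Finset.mem_Ico.2 m2, by simpa [E] using hk⟩⟩

theorem slal (h : BA ℕ) (x : I → ℕ → ℕ) : ∃ s : ℕ → Finset ℕ, (∀ n, (s n).card ≤ 2 ^ (n + 1) * n) ∧
    ∀ b, ∀ᶠ n in atTop, x b n ∈ s n := by
  obtain ⟨r, hr⟩ := rr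
  obtain ⟨t, ht⟩ := fr ℕ
  choose ξ hξ using fun a => countable_iff_exists_subset_range.1 (cI a)
  choose e he using fun n => exists_injective_nat ((Fin n → ℕ) × Bool)
  let Y : I → ℕ → ℕ := fun a n => e n (fun i => x (ξ a i) n, r a (t n))
  let Z : I → ℕ → ℕ := fun a n => (r a (t n)).toNat
  have z : ∀ a b, Z a =ᶠ[atTop] Z b → a = b := fun a b c => hr (ht _ _ (c.mono fun n h =>
    (by decide : Injective Bool.toNat) h))
  obtain ⟨f, f1, f2, f3⟩ := h _ _ (den z) (den (Y := Y) fun a b c => hr (ht _ _ (c.mono fun n h =>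
    congrArg Prod.snd (he n h))))
  have m : ∀ a, Z a ∈ Cl Z := fun a => ⟨a, .rfl⟩
  refine ⟨fun n => Finset.univ.image fun p : (Fin (n + 1) → Bool) × Fin n => (invFun (e n)
    (f (fun i => if h : i < n + 1 then (p.1 ⟨i, h⟩).toNat else 0) n)).1 p.2, fun n =>
      Finset.card_image_le.trans (by simp), fun b => ?_⟩
  obtain ⟨a, c, h1, h2⟩ := big (g := fun a => f (Z a)) (fun a b c => z a b
    (f2 (m a) (m b) c ▸ .rfl)) (fun a => f3 ⟨_, m a, rfl⟩) b
  obtain ⟨i, rfl⟩ := hξ c h1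
  refine (h2.and (eventually_gt_atTop i)).mono fun n ⟨g, h⟩ => Finset.mem_image.2
    ⟨(fun j => r a (t j), ⟨i, h⟩), by simp, ?_⟩
  rw [f1 (n + 1) _ (Z a) (fun j h => dif_pos h) n n.lt_succ_self, g, leftInverse_invFun (he n)]

theorem q2 (h : BA ℕ) : ℵ₁ < addN := by
  obtain ⟨F, h1, h2, h3⟩ : addN ∈ _ := csInf_mem ⟨_, range singleton, by simp, by
    simp [iUnion_of_singleton], rfl⟩
  refine h3 ▸ not_le.1 fun c => h2 ?_
  obtain ⟨j⟩ := (le_def F I).1 (mkI ▸ c)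
  obtain ⟨A, hA⟩ := code (volume : Measure ℝ) (fun n => 2⁻¹ ^ n / (2 ^ (n + 1) * n + 1 : ℕ))
    fun n => ENNReal.div_pos (by simp) (ENNReal.natCast_ne_top _)
  choose x x1 x2 using fun N : F => hA _ (h1 _ N.2)
  obtain ⟨s, s1, s2⟩ := slal h (extend j x fun _ _ => 0)
  refine measure_mono_null (sUnion_subset fun N hN y hy => ?_) (nul volume A (fun n => 2⁻¹ ^ n /
    (2 ^ (n + 1) * n + 1 : ℕ)) s fun n => ?_)
  · exact ((x2 ⟨N, hN⟩ y hy).and_eventually (s2 (j ⟨N, hN⟩))).mono fun n h =>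
      ⟨_, j.injective.extend_apply x _ _ ▸ h.2, x1 _ n, h.1⟩
  · exact (mul_le_mul_left (Nat.cast_le.2 ((s1 n).trans (Nat.le_succ _))) _).trans
      ENNReal.mul_div_le

end Pool.Agent.H.MP_84ba36_lc
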