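import Mathlib
import Pool.Agent.H.MP_84ba36_lc.A

set_option autoImplicit false

namespace Pool.Agent.H.MP_84ba36_lc

open Set Filter Function Cardinal Topology MeasureTheory Pool.Agent.H.MP_77d395_lc
open scoped ENNReal

/-- the uncountable partial form of the Lipschitz Baumgartner axiom -/
def BAw (D : Type) [TopologicalSpace D] : Prop :=
  ∀ A B : Set (ℕ → D), Den A → Den B → ∃ C ⊆ A, ¬ C.Countable ∧ ∃ f : (ℕ → D) → ℕ → D,
    (∀ k, ∀ x ∈ C, ∀ y ∈ C, (∀ i < k, x i = y i) → ∀ i < k, f x i = f y i) ∧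
      InjOn f C ∧ f '' C ⊆ B

theorem slalw (h : BAw ℕ) (x : I → ℕ → ℕ) : ∃ s : ℕ → Finset ℕ,
    (∀ n, (s n).card ≤ 2 ^ (n + 1) * n) ∧ ∀ b, ∀ᶠ n in atTop, x b n ∈ s n := by
  obtain ⟨r, hr⟩ := rr
  obtain ⟨t, ht⟩ := fr ℕ
  choose ξ hξ using fun a => countable_iff_exists_subset_range.1 (cI a)
  choose e he using fun n => exists_injective_nat ((Fin n → ℕ) × Bool)
  let Y : I → ℕ → ℕ := fun a n => e n (fun i => x (ξ a i) n, r a (t n))
  let Z : I → ℕ → ℕ := fun a n => (r a (t n)).toNat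
  have z : ∀ a b, Z a =ᶠ[atTop] Z b → a = b := fun a b c => hr (ht _ _ (c.mono fun n h =>
    (by decide : Injective Bool.toNat) h))
  obtain ⟨C, c1, c2, f, f1, f2, f3⟩ := h _ _ (den z) (den (Y := Y) fun a b c => hr (ht _ _
    (c.mono fun n h => congrArg Prod.snd (he n h))))
  obtain ⟨⟨k, u⟩, c3⟩ : ∃ p : Σ k, Fin k → ℕ, ¬ {y ∈ C | (∀ i : Fin p.1, y i = p.2 i) ∧
      ∀ i ≥ p.1, y i ≤ 1}.Countable := by
    by_contra! c
    refine c2 ((countable_iUnion c).mono fun y hy => ?_)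
    obtain ⟨a, ha⟩ := c1 hy
    obtain ⟨k, hk⟩ := eventually_atTop.1 ha
    exact mem_iUnion.2 ⟨⟨k, fun i => y i⟩, hy, fun _ => rfl, fun i h => hk i h ▸ Bool.toNat_le _⟩
  set E := {y ∈ C | (∀ i : Fin k, y i = u i) ∧ ∀ i ≥ k, y i ≤ 1}
  let K : ∀ n, (ℕ → ℕ) → Fin (n + 1) → Bool := fun n y j => decide (y j = 1)
  refine ⟨fun n => Finset.univ.image fun p : (Fin (n + 1) → Bool) × Fin n => (invFun (e n)
    (f (invFunOn (K n) E p.1) n)).1 p.2, fun n => Finset.card_image_le.trans (by simp), fun b => ?_⟩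
  obtain ⟨y, y1, y2⟩ := not_subset.1 fun c : E ⊆ f ⁻¹' ⋃ c ∈ Iic b, {z | z =ᶠ[atTop] Y c} =>
    c3 (countable_of_injective_of_countable_image (f2.mono (sep_subset _ _))
      (((cI b).biUnion fun c _ => cls (Y c)).mono (image_subset_iff.2 c)))
  obtain ⟨c, hc⟩ := f3 ⟨y, y1.1, rfl⟩
  obtain ⟨i, rfl⟩ := hξ c (show b ≤ c from (not_le.1 fun e => y2 (mem_biUnion
    (show c ∈ Iic b from e) hc)).le)
  refine (hc.and (eventually_gt_atTop i)).mono fun n ⟨g, h⟩ => Finset.mem_image.2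
    ⟨(K n y, ⟨i, h⟩), by simp, ?_⟩
  obtain ⟨p1, p2⟩ := invFunOn_pos (f := K n) ⟨y, y1, rfl⟩
  rw [f1 (n + 1) _ p1.1 y y1.1 (fun j h => ?_) n n.lt_succ_self, g, leftInverse_invFun (he n)]
  by_cases q : j < k
  · exact (p1.2.1 ⟨j, q⟩).trans (y1.2.1 ⟨j, q⟩).symm
  have := p1.2.2 j (not_lt.1 q)
  have := y1.2.2 j (not_lt.1 q)
  have := decide_eq_decide.1 (congrFun p2 ⟨j, h⟩)
  simp only at this
  omega

theorem q2w (h : BAw ℕ) : ℵ₁ < addN := by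
  obtain ⟨F, h1, h2, h3⟩ : addN ∈ _ := csInf_mem ⟨_, range singleton, by simp, by
    simp [iUnion_of_singleton], rfl⟩
  refine h3 ▸ not_le.1 fun c => h2 ?_
  obtain ⟨j⟩ := (le_def F I).1 (mkI ▸ c)
  obtain ⟨A, hA⟩ := code (volume : Measure ℝ) (fun n => 2⁻¹ ^ n / (2 ^ (n + 1) * n + 1 : ℕ))
    fun n => ENNReal.div_pos (by simp) (ENNReal.natCast_ne_top _)
  choose x x1 x2 using fun N : F => hA _ (h1 _ N.2)
  obtain ⟨s, s1, s2⟩ := slalw h (extend j x fun _ _ => 0)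
  refine measure_mono_null (sUnion_subset fun N hN y hy => ?_) (nul volume A (fun n => 2⁻¹ ^ n /
    (2 ^ (n + 1) * n + 1 : ℕ)) s fun n => ?_)
  · exact ((x2 ⟨N, hN⟩ y hy).and_eventually (s2 (j ⟨N, hN⟩))).mono fun n h =>
      ⟨_, j.injective.extend_apply x _ _ ▸ h.2, x1 _ n, h.1⟩
  · exact (mul_le_mul_left (Nat.cast_le.2 ((s1 n).trans (Nat.le_succ _))) _).trans
      ENNReal.mul_div_le

theorem baw (h : BA ℕ) : BAw ℕ := fun A B a b =>
  let ⟨f, f1, f2, f3⟩ := h A B a b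
  ⟨A, subset_rfl, fun c => (le_aleph0_iff_set_countable.2 (c.mono inter_subset_left)).not_gt
    ((a _ isOpen_univ univ_nonempty).symm ▸ aleph0_lt_aleph_one), f, fun k x _ y _ => f1 k x y,
      f2, f3⟩

end Pool.Agent.H.MP_84ba36_lc
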